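import Mathlib

/-!
# The product of a primitive character with the character modulo four
-/

set_option autoImplicit false

namespace Pool.Agent.W762.EC.Chi

open DirichletCharacter

/-- The character modulo four. -/
noncomputable def X4 : DirichletCharacter ℂ 4 := ZMod.χ₄.ringHomComp (Int.castRingHom ℂ)

theorem X4_apply (n : ℕ) : X4 (n : ZMod 4) = ((ZMod.χ₄ (n : ZMod 4) : ℤ) : ℂ) := rfl

theorem X4_one {n : ℕ} (h : n % 4 = 1) : X4 (n : ZMod 4) = 1 := by
  rw [X4_apply, ZMod.χ₄_nat_one_mod_four h]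
  simp

theorem X4_three {n : ℕ} (h : n % 4 = 3) : X4 (n : ZMod 4) = -1 := by
  rw [X4_apply, ZMod.χ₄_nat_three_mod_four h]
  simp

theorem X4_ne_one : X4 ≠ 1 := by
  intro h
  have h1 := X4_three (n := 3) (by norm_num)
  rw [h] at h1
  have h2 : IsUnit ((3 : ℕ) : ZMod 4) := by decide
  rw [MulChar.one_apply h2] at h1
  norm_num at h1

theorem level_two (χ : DirichletCharacter ℂ 2) : χ = 1 := by
  ext u
  have hu : u = 1 := by
    have : Fintype.card (ZMod 2)ˣ = 1 := by decide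
    exact Fintype.card_le_one_iff.1 this.le u 1
  rw [hu]
  simp

theorem cond_two {q : ℕ} (χ : DirichletCharacter ℂ q) (hχ : χ.IsPrimitive) : q ≠ 2 := by
  rintro rfl
  have h1 := level_two χ
  rw [isPrimitive_def, h1, conductor_one] at hχ
  omega

theorem X4_prim : X4.IsPrimitive := by
  rw [isPrimitive_def]
  have h1 : X4.conductor ∣ 4 := conductor_dvd_level _
  have h2 : X4.conductor ≠ 1 := fun h => X4_ne_one (eq_one_iff_conductor_eq_one.2 h)
  have h3 : X4.conductor ≠ 2 := cond_two X4.primitiveCharacter X4.primitiveCharacter_isPrimitive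
  have h4 : X4.conductor ≤ 4 := Nat.le_of_dvd (by norm_num) h1
  interval_cases X4.conductor <;> omega

/-- The product with the character modulo four. -/
noncomputable def Psi {q : ℕ} (χ : DirichletCharacter ℂ q) : DirichletCharacter ℂ (4 * q) :=
  changeLevel (Dvd.intro_left 4 rfl) χ * changeLevel (Dvd.intro q rfl) X4

theorem Psi_ne_one {q : ℕ} (hq : 2 ≤ q) (hq4 : q ≠ 4) (χ : DirichletCharacter ℂ q)
    (hχ : χ.IsPrimitive) : Psi χ ≠ 1 := by
  intro h
  have : NeZero (4 * q) := ⟨by omega⟩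
  have h1 : changeLevel (Dvd.intro_left 4 rfl : q ∣ 4 * q) χ =
      (changeLevel (Dvd.intro q rfl : 4 ∣ 4 * q) X4)⁻¹ := by
    rw [eq_inv_iff_mul_eq_one]
    exact h
  have h2 := congrArg conductor h1
  rw [conductor_changeLevel, conductor_inv, conductor_changeLevel] at h2
  rw [isPrimitive_def] at hχ
  have h3 : X4.conductor = 4 := X4_prim
  rw [hχ, h3] at h2
  exact hq4 h2

theorem Psi_apply {q : ℕ} (χ : DirichletCharacter ℂ q) {p : ℕ} (hp : Nat.Coprime p (4 * q)) :
    (Psi χ).primitiveCharacter (p : ZMod (Psi χ).conductor) = χ (p : ZMod q) * X4 (p : ZMod 4) := by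
  have hc : IsCoprime (p : ℤ) ((4 * q : ℕ) : ℤ) := Nat.isCoprime_iff_coprime.2 hp
  have h1 := primitiveCharacter_apply_of_isCoprime (Psi χ) hc
  rw [Int.cast_natCast, Int.cast_natCast] at h1
  rw [h1]
  unfold Psi
  rw [MulChar.mul_apply]
  have h2 := changeLevel_eq_cast_of_dvd' χ (Dvd.intro_left 4 rfl : q ∣ 4 * q) hc
  have h3 := changeLevel_eq_cast_of_dvd' X4 (Dvd.intro q rfl : 4 ∣ 4 * q) hc
  rw [Int.cast_natCast, Int.cast_natCast] at h2 h3
  rw [h2, h3]

theorem Psi_cond {q : ℕ} (hq : 2 ≤ q) (hq4 : q ≠ 4) (χ : DirichletCharacter ℂ q)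
    (hχ : χ.IsPrimitive) : 1 < (Psi χ).conductor ∧ (Psi χ).conductor ≤ 4 * q := by
  have : NeZero (4 * q) := ⟨by omega⟩
  have h1 : (Psi χ).conductor ≠ 0 := conductor_ne_zero _
  have h2 : (Psi χ).conductor ≠ 1 :=
    fun h => Psi_ne_one hq hq4 χ hχ (eq_one_iff_conductor_eq_one.2 h)
  have h3 : (Psi χ).conductor ≤ 4 * q := Nat.le_of_dvd (by omega) (conductor_dvd_level _)
  omega

end Pool.Agent.W762.EC.Chi
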