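import Pool.Agent.H262R3.Lk.SWQ

/-!
# Sums over primes in primitive characters of small conductor
-/

set_option autoImplicit false

open Finset Filter Topology

namespace Pool.Agent.W762.EC.SSA

open Pool.Agent.H262R3.Lk.SWQ

theorem growth (K : ℕ) : ∃ X : ℝ, ∀ x : ℝ, X ≤ x → Real.log x ^ K ≤ Real.sqrt x := by
  have := (isLittleO_log_rpow_rpow_atTop (K : ℝ) (s := 1 / 2) (by norm_num)).bound
    (c := 1) (by norm_num)
  obtain ⟨X, hX⟩ := eventually_atTop.1 (this.and (eventually_ge_atTop (1 : ℝ)))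
  refine ⟨X, fun x hx => ?_⟩
  obtain ⟨h1, h2⟩ := hX x hx
  have hl : 0 ≤ Real.log x := Real.log_nonneg h2
  rw [Real.rpow_natCast, Real.norm_of_nonneg (by positivity),
    Real.norm_of_nonneg (by positivity), ← Real.sqrt_eq_rpow, one_mul] at h1
  exact h1

theorem psiC_bound (A B : ℕ) : ∃ x₁ : ℝ, ∀ x : ℝ, x₁ ≤ x → ∀ q : ℕ, 1 < q →
    (q : ℝ) ≤ (Real.log x) ^ B → ∀ χ : DirichletCharacter ℂ q, χ.IsPrimitive →
      ‖psiC x q χ‖ ≤ 10 * x / (Real.log x) ^ A := by
  obtain ⟨x0, hx0⟩ := Pool.Agent.H379R2.SW.siegelWalfisz Pool.Agent.H307R2.siegel (2 * A + 1) B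
  obtain ⟨x2, hx2⟩ := growth (A + 1)
  refine ⟨max (max x0 1) (max x2 (Real.exp 24)), fun x hx q hq hqB χ hχ => ?_⟩
  have hxx0 : x0 ≤ x := ((le_max_left _ _).trans (le_max_left _ _)).trans hx
  have hx1 : 1 ≤ x := ((le_max_right _ _).trans (le_max_left _ _)).trans hx
  have hxx2 : x2 ≤ x := ((le_max_left _ _).trans (le_max_right _ _)).trans hx
  have hx24 : Real.exp 24 ≤ x := ((le_max_right _ _).trans (le_max_right _ _)).trans hx
  have hxp : 0 < x := by linarith
  set L := Real.log x with hL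
  have hL24 : 24 ≤ L := by rw [hL, Real.le_log_iff_exp_le hxp]; exact hx24
  have hLp : 0 < L := by linarith
  have hLx : L ^ (A + 1) ≤ x := by
    refine (hx2 x hxx2).trans ?_
    rw [Real.sqrt_le_left hxp.le]
    nlinarith
  set δ := 1 / L ^ (A + 1) with hδ
  have hδ0 : 0 < δ := by positivity
  have hδ1 : δ ≤ 1 := by
    rw [hδ, div_le_one (by positivity)]
    have : (1:ℝ) ≤ L := by linarith
    exact one_le_pow₀ this
  have hc : 1 ≤ 1 + δ := by linarith
  have hmain := psiLog_sub x (1 + δ) hx1 hc q χ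
  have hlogc1 : Real.log (1 + δ) ≤ δ := by
    have := Real.log_le_sub_one_of_pos (show 0 < 1 + δ by linarith)
    linarith
  have hlogc2 : δ / 2 ≤ Real.log (1 + δ) := by
    have h1 := Real.one_sub_inv_le_log_of_pos (show 0 < 1 + δ by linarith)
    have h2 : δ / 2 ≤ 1 - (1 + δ)⁻¹ := by
      rw [show 1 - (1 + δ)⁻¹ = δ / (1 + δ) by field_simp; ring]
      apply div_le_div_of_nonneg_left hδ0.le (by linarith) (by linarith)
    linarith
  have hlogcx : Real.log ((1 + δ) * x) ≤ L + 1 := by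
    rw [Real.log_mul (by linarith) (by linarith)]
    linarith
  have hlogcx' : L ≤ Real.log ((1 + δ) * x) := by
    apply Real.log_le_log hxp
    nlinarith
  have hb1 : ‖Pool.Agent.H410R2.psiLog x q χ‖ ≤ x / L ^ (2 * A + 1) := hx0 x hxx0 q hq hqB χ hχ
  have hb2 : ‖Pool.Agent.H410R2.psiLog ((1 + δ) * x) q χ‖ ≤ 2 * x / L ^ (2 * A + 1) := by
    have hle : x ≤ (1 + δ) * x := by nlinarith
    have := hx0 ((1 + δ) * x) (hxx0.trans hle) q hq
      (hqB.trans (pow_le_pow_left₀ hLp.le hlogcx' _)) χ hχ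
    refine this.trans ?_
    apply div_le_div₀ (by positivity) (by nlinarith) (by positivity)
    exact pow_le_pow_left₀ hLp.le hlogcx' _
  have hlogc0 : 0 < Real.log (1 + δ) := by linarith
  have hE : Real.log (1 + δ) * (((1 + δ) * x - x + 1) * Real.log ((1 + δ) * x)) ≤
      Real.log (1 + δ) * (4 * x / L ^ A) := by
    apply mul_le_mul_of_nonneg_left _ hlogc0.le
    have h1 : (1 + δ) * x - x + 1 ≤ 2 * (x / L ^ (A + 1)) := by
      have : (1 + δ) * x - x = x / L ^ (A + 1) := by rw [hδ]; ring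
      rw [this]
      have : 1 ≤ x / L ^ (A + 1) := by rw [le_div_iff₀ (by positivity)]; linarith
      linarith
    have h2 : Real.log ((1 + δ) * x) ≤ 2 * L := by linarith
    calc ((1 + δ) * x - x + 1) * Real.log ((1 + δ) * x) ≤ (2 * (x / L ^ (A + 1))) * (2 * L) := by
          apply mul_le_mul h1 h2 (by linarith) (by positivity)
      _ = 4 * x / L ^ A := by
          rw [pow_succ]
          field_simp
          ring
  have hnorm : Real.log (1 + δ) * ‖psiC x q χ‖ ≤
      2 * x / L ^ (2 * A + 1) + x / L ^ (2 * A + 1) + Real.log (1 + δ) * (4 * x / L ^ A) := by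
    have e : (Real.log (1 + δ) : ℂ) * psiC x q χ =
        Pool.Agent.H410R2.psiLog ((1 + δ) * x) q χ - Pool.Agent.H410R2.psiLog x q χ -
        (Pool.Agent.H410R2.psiLog ((1 + δ) * x) q χ - Pool.Agent.H410R2.psiLog x q χ -
          (Real.log (1 + δ) : ℂ) * psiC x q χ) := by ring
    have e2 : Real.log (1 + δ) * ‖psiC x q χ‖ = ‖(Real.log (1 + δ) : ℂ) * psiC x q χ‖ := by
      rw [norm_mul, Complex.norm_real, Real.norm_of_nonneg hlogc0.le]
    rw [e2, e]
    refine (norm_sub_le _ _).trans ?_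
    have := norm_sub_le (Pool.Agent.H410R2.psiLog ((1 + δ) * x) q χ)
      (Pool.Agent.H410R2.psiLog x q χ)
    linarith
  have h3 : 2 * x / L ^ (2 * A + 1) + x / L ^ (2 * A + 1) ≤
      Real.log (1 + δ) * (6 * x / L ^ A) := by
    have : δ / 2 * (6 * x / L ^ A) ≤ Real.log (1 + δ) * (6 * x / L ^ A) :=
      mul_le_mul_of_nonneg_right hlogc2 (by positivity)
    refine le_trans (le_of_eq ?_) this
    rw [hδ]
    have e5 : L ^ (2 * A + 1) = L ^ (A + 1) * L ^ A := by rw [← pow_add]; congr 1; ring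
    rw [e5]
    field_simp
    ring
  have h4 : Real.log (1 + δ) * ‖psiC x q χ‖ ≤ Real.log (1 + δ) * (10 * x / L ^ A) := by
    have : Real.log (1 + δ) * (6 * x / L ^ A) + Real.log (1 + δ) * (4 * x / L ^ A) =
      Real.log (1 + δ) * (10 * x / L ^ A) := by ring
    linarith
  exact le_of_mul_le_mul_left h4 hlogc0

theorem SS_bound (A B : ℕ) : ∃ n₁ : ℕ, ∀ n : ℕ, n₁ ≤ n → ∀ q : ℕ, 1 < q →
    (q : ℝ) ≤ (Real.log n) ^ B → ∀ χ : DirichletCharacter ℂ q, χ.IsPrimitive →
      ‖SS χ n‖ ≤ 12 * n / (Real.log n) ^ A := by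
  obtain ⟨x1, hx1⟩ := psiC_bound A B
  obtain ⟨x2, hx2⟩ := growth (A + 1)
  refine ⟨max ⌈x1⌉₊ (max ⌈x2⌉₊ 3), fun n hn q hq hqB χ hχ => ?_⟩
  have h1 : x1 ≤ n := (Nat.le_ceil _).trans (by exact_mod_cast (le_max_left _ _).trans hn)
  have h2 : x2 ≤ n := (Nat.le_ceil _).trans
    (by exact_mod_cast ((le_max_left _ _).trans (le_max_right _ _)).trans hn)
  have h3 : 3 ≤ n := ((le_max_right _ _).trans (le_max_right _ _)).trans hn
  have hnp : (0:ℝ) < n := by
    have : (3 : ℝ) ≤ n := by exact_mod_cast h3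
    linarith
  have hn1 : 1 ≤ n := by omega
  set L := Real.log n with hL
  have hL1 : 0 < L := by
    rw [hL]
    apply Real.log_pos
    have : (3 : ℝ) ≤ n := by exact_mod_cast h3
    linarith
  have hb := hx1 n h1 q hq hqB χ hχ
  have hc := SS_psiC n hn1 q χ
  have hg := hx2 n h2
  have hs : 2 * Real.sqrt n * L ≤ 2 * n / L ^ A := by
    rw [le_div_iff₀ (by positivity)]
    have e2 : (n:ℝ) = Real.sqrt n * Real.sqrt n := (Real.mul_self_sqrt hnp.le).symm
    calc 2 * Real.sqrt n * L * L ^ A = 2 * (Real.sqrt n * L ^ (A + 1)) := by rw [pow_succ]; ring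
      _ ≤ 2 * (Real.sqrt n * Real.sqrt n) := by gcongr
      _ = 2 * n := by rw [← e2]
  have e : SS χ n = psiC n q χ + (SS χ n - psiC n q χ) := by ring
  rw [e]
  refine (norm_add_le _ _).trans ?_
  have : 12 * (n:ℝ) / L ^ A = 10 * n / L ^ A + 2 * n / L ^ A := by ring
  rw [this]
  exact add_le_add hb (hc.trans hs)

end Pool.Agent.W762.EC.SSA
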