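import Pool.Agent.W78.EC.Defs2
import Pool.Agent.W762.EC.Chi
import Pool.Agent.W762.EC.SSA
import Pool.Agent.W762.EC.PntA

/-!
# Primes in characters of small conductor
-/

set_option autoImplicit false

open Finset

namespace Pool.Agent.W762.EC

open Pool.Agent.W78.EC Pool.Agent.H262R3.Lk.SWQ Pool.Agent.W762.EC.Chi

theorem th_nat (Q m : ℕ) (h1 : Q < m) (h2 : m ≤ 2 * Q) :
    th Q (m : ℤ) = if m.Prime ∧ m % 4 = 1 then Real.log m else 0 := by
  unfold th PQ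
  have e : ((m : ℤ)).toNat = m := Int.toNat_natCast m
  rw [e]
  have h3 : (0 : ℤ) < m := by omega
  simp only [mem_filter, mem_Ioc, h1, h2, h3, true_and, Int.cast_natCast]

theorem SS_sub {q : ℕ} (χ : DirichletCharacter ℂ q) (Q t : ℕ) (h : Q ≤ t) :
    SS χ t - SS χ Q = ∑ m ∈ Ioc Q t, Pool.Agent.H262R3.Lk.SWQ.av χ m := by
  unfold SS
  have e : ∀ b : ℕ, Icc 1 b = Ioc 0 b := fun b => by
    ext n
    simp only [mem_Icc, mem_Ioc]
    omega
  rw [e, e, ← sum_Ioc_consecutive _ (Nat.zero_le Q) h]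
  ring

theorem th_split {q : ℕ} (hq : 2 ≤ q) (χ : DirichletCharacter ℂ q)
    (Q t : ℕ) (hQ : 4 * q ≤ Q) (h1 : Q ≤ t) (h2 : t ≤ 2 * Q) :
    ∑ m ∈ Ioc Q t, (th Q m : ℂ) * χ (m : ZMod q) =
      (1 / 2 : ℂ) * ((SS χ t - SS χ Q) +
        (SS (Psi χ).primitiveCharacter t - SS (Psi χ).primitiveCharacter Q)) := by
  rw [SS_sub _ Q t h1, SS_sub _ Q t h1, ← sum_add_distrib, mul_sum]
  apply sum_congr rfl
  intro m hm
  rw [mem_Ioc] at hm
  rw [th_nat Q m hm.1 (by omega)]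
  unfold Pool.Agent.H262R3.Lk.SWQ.av
  by_cases hp : m.Prime
  · have hcop : Nat.Coprime m (4 * q) := by
      rw [Nat.Prime.coprime_iff_not_dvd hp]
      intro hd
      have := Nat.le_of_dvd (by omega) hd
      omega
    rw [if_pos hp, if_pos hp, Psi_apply χ hcop]
    have hodd : m % 2 = 1 := by
      rcases hp.eq_two_or_odd with h | h
      · omega
      · exact h
    have h4 : m % 4 = 1 ∨ m % 4 = 3 := by omega
    rcases h4 with h4 | h4
    · rw [if_pos ⟨hp, h4⟩, X4_one h4]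
      ring
    · rw [if_neg (by rintro ⟨_, h5⟩; omega), X4_three h4]
      push_cast
      ring
  · rw [if_neg (fun h => hp h.1), if_neg hp, if_neg hp]
    simp

/-- The bound for the difference. -/
theorem SS_diff (A B : ℕ) : ∃ n₁ : ℕ, ∀ Q : ℕ, n₁ ≤ Q → ∀ t : ℕ, Q ≤ t → t ≤ 2 * Q →
    ∀ q : ℕ, 1 < q → (q : ℝ) ≤ (Real.log Q) ^ B → ∀ χ : DirichletCharacter ℂ q,
      χ.IsPrimitive → ‖SS χ t - SS χ Q‖ ≤ 36 * Q / (Real.log Q) ^ A := by
  obtain ⟨n₁, h⟩ := SSA.SS_bound A B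
  refine ⟨max n₁ 3, fun Q hQ t h1 h2 q hq hqB χ hχ => ?_⟩
  have hQ1 : n₁ ≤ Q := (le_max_left _ _).trans hQ
  have hQ3 : 3 ≤ Q := (le_max_right _ _).trans hQ
  have hQ3' : (3 : ℝ) ≤ Q := by exact_mod_cast hQ3
  have hL : 0 < Real.log Q := Real.log_pos (by linarith)
  have htQ : (Q : ℝ) ≤ t := by exact_mod_cast h1
  have htQ2 : (t : ℝ) ≤ 2 * Q := by exact_mod_cast h2
  have hLt : Real.log Q ≤ Real.log t := Real.log_le_log (by linarith) htQ
  have b1 := h Q hQ1 q hq hqB χ hχ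
  have b2 := h t (hQ1.trans h1) q hq (hqB.trans (pow_le_pow_left₀ hL.le hLt _)) χ hχ
  have b3 : 12 * (t : ℝ) / Real.log t ^ A ≤ 24 * Q / Real.log Q ^ A := by
    apply div_le_div₀ (by positivity) (by linarith) (by positivity)
    exact pow_le_pow_left₀ hL.le hLt _
  have b4 := norm_sub_le (SS χ t) (SS χ Q)
  have e : 36 * (Q : ℝ) / Real.log Q ^ A = 24 * Q / Real.log Q ^ A + 12 * Q / Real.log Q ^ A := by
    ring
  rw [e]
  linarith

theorem part1 (A B : ℕ) : ∃ C : ℝ, ∃ Q₀ : ℕ, ∀ Q : ℕ, Q₀ ≤ Q → ∀ t : ℕ, Q ≤ t → t ≤ 2 * Q →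
    ∀ q : ℕ, 2 ≤ q → q ≠ 4 → (q : ℝ) ≤ Real.log Q ^ B → ∀ χ : DirichletCharacter ℂ q,
    χ.IsPrimitive → ‖∑ m ∈ Ioc Q t, (th Q m : ℂ) * χ (m : ZMod q)‖ ≤ C * Q / Real.log Q ^ A := by
  obtain ⟨n₁, h⟩ := SS_diff A (B + 1)
  obtain ⟨X, hX⟩ := SSA.growth B
  refine ⟨36, max (max n₁ ⌈X⌉₊) (max ⌈Real.exp 4⌉₊ 16), fun Q hQ t h1 h2 q hq hq4 hqB χ hχ => ?_⟩
  have hQ1 : n₁ ≤ Q := ((le_max_left _ _).trans (le_max_left _ _)).trans hQ
  have hQ2 : X ≤ Q := (Nat.le_ceil _).trans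
    (by exact_mod_cast ((le_max_right _ _).trans (le_max_left _ _)).trans hQ)
  have hQ3 : Real.exp 4 ≤ Q := (Nat.le_ceil _).trans
    (by exact_mod_cast ((le_max_left _ _).trans (le_max_right _ _)).trans hQ)
  have hQ16 : 16 ≤ Q := ((le_max_right _ _).trans (le_max_right _ _)).trans hQ
  have hQ16' : (16 : ℝ) ≤ Q := by exact_mod_cast hQ16
  have hL : 4 ≤ Real.log Q := by rw [Real.le_log_iff_exp_le (by linarith)]; exact hQ3
  have hB0 : 0 ≤ Real.log Q ^ B := by positivity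
  have hLB : Real.log Q ^ (B + 1) = Real.log Q ^ B * Real.log Q := pow_succ _ _
  have hqB' : ((4 * q : ℕ) : ℝ) ≤ Real.log Q ^ (B + 1) := by
    push_cast
    rw [hLB]
    nlinarith
  have hq' : (q : ℝ) ≤ Real.log Q ^ (B + 1) := by
    rw [hLB]
    nlinarith
  have hqQ : 4 * q ≤ Q := by
    have e1 := hX Q hQ2
    have e2 : Real.sqrt Q * Real.sqrt Q = Q := Real.mul_self_sqrt (by linarith)
    have e3 : (4 : ℝ) ≤ Real.sqrt Q := by
      apply Real.le_sqrt_of_sq_le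
      linarith
    have e4 : 4 * (q : ℝ) ≤ Q := by
      calc 4 * (q : ℝ) ≤ 4 * Real.sqrt Q := by linarith
        _ ≤ Real.sqrt Q * Real.sqrt Q := by
          apply mul_le_mul_of_nonneg_right e3 (Real.sqrt_nonneg _)
        _ = Q := e2
    exact_mod_cast e4
  rw [th_split hq χ Q t hqQ h1 h2, norm_mul]
  have k1 := h Q hQ1 t h1 h2 q (by omega) hq' χ hχ
  obtain ⟨c1, c2⟩ := Psi_cond hq hq4 χ hχ
  have k2 := h Q hQ1 t h1 h2 (Psi χ).conductor c1
    (le_trans (by exact_mod_cast c2) hqB') (Psi χ).primitiveCharacter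
    (Psi χ).primitiveCharacter_isPrimitive
  have k3 := norm_add_le (SS χ t - SS χ Q)
    (SS (Psi χ).primitiveCharacter t - SS (Psi χ).primitiveCharacter Q)
  have k4 : ‖(1 / 2 : ℂ)‖ = 1 / 2 := by norm_num
  rw [k4]
  linarith

/-! ### The main term -/

/-- `log m` for primes `m` -/
noncomputable def lp (m : ℕ) : ℝ := if m.Prime then Real.log m else 0

theorem theta_nat (n : ℕ) : Chebyshev.theta (n : ℝ) = ∑ m ∈ Ioc 0 n, lp m := by
  unfold Chebyshev.theta lp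
  rw [Nat.floor_natCast, sum_filter]

theorem theta_bound (A : ℕ) : ∃ n₁ : ℕ, ∀ n : ℕ, n₁ ≤ n →
    |Chebyshev.theta (n : ℝ) - n| ≤ (37 + 16 * 8 ^ (A + 1)) * (n / Real.log n ^ A) := by
  obtain ⟨n₁, h⟩ := PntA.large (A + 1) (by omega)
  obtain ⟨X, hX⟩ := SSA.growth (A + 1)
  refine ⟨max (max n₁ ⌈X⌉₊) ⌈Real.exp 1⌉₊, fun n hn => ?_⟩
  have hn1 : n₁ ≤ n := ((le_max_left _ _).trans (le_max_left _ _)).trans hn
  have hn2 : X ≤ n := (Nat.le_ceil _).trans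
    (by exact_mod_cast ((le_max_right _ _).trans (le_max_left _ _)).trans hn)
  have hn3 : Real.exp 1 ≤ n := (Nat.le_ceil _).trans
    (by exact_mod_cast (le_max_right _ _).trans hn)
  have hnp : (0 : ℝ) < n := lt_of_lt_of_le (Real.exp_pos 1) hn3
  have hL : 1 ≤ Real.log n := by rw [Real.le_log_iff_exp_le hnp]; exact hn3
  have hn1' : (1 : ℝ) ≤ n := by
    have : 0 < n := by exact_mod_cast hnp
    exact_mod_cast this
  have k1 := h n hn1
  have k2 := Chebyshev.psi_sub_theta_le hn1'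
  have k3 := Chebyshev.theta_le_psi (n : ℝ)
  have k4 := hX n hn2
  have k5 : Real.log n ^ A ≤ Real.log n ^ (A + 1) := pow_le_pow_right₀ hL (by omega)
  have k6 : (n : ℝ) / Real.log n ^ (A + 1) ≤ n / Real.log n ^ A := by
    apply div_le_div_of_nonneg_left hnp.le (by positivity) k5
  have k7 : 2 * Real.sqrt n * Real.log n ≤ 2 * (n / Real.log n ^ A) := by
    have e2 : (n:ℝ) = Real.sqrt n * Real.sqrt n := (Real.mul_self_sqrt hnp.le).symm
    rw [mul_div_assoc', le_div_iff₀ (by positivity)]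
    calc 2 * Real.sqrt n * Real.log n * Real.log n ^ A =
        2 * (Real.sqrt n * Real.log n ^ (A + 1)) := by rw [pow_succ]; ring
      _ ≤ 2 * (Real.sqrt n * Real.sqrt n) := by gcongr
      _ = 2 * n := by rw [← e2]
  have k8 : (35 + 16 * 8 ^ (A + 1)) * ((n : ℝ) / Real.log n ^ (A + 1)) ≤
      (35 + 16 * 8 ^ (A + 1)) * (n / Real.log n ^ A) :=
    mul_le_mul_of_nonneg_left k6 (by positivity)
  rw [abs_le] at k1 ⊢
  constructor <;> linarith [k1.1, k1.2]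

theorem part2 (A : ℕ) : ∃ C : ℝ, ∃ Q₀ : ℕ, ∀ Q : ℕ, Q₀ ≤ Q → ∀ t : ℕ, Q ≤ t → t ≤ 2 * Q →
    |∑ m ∈ Ioc Q t, th Q m - ((t : ℝ) - Q) / 2| ≤ C * Q / Real.log Q ^ A := by
  obtain ⟨n₁, h⟩ := SS_diff A 1
  obtain ⟨n₂, h'⟩ := theta_bound A
  refine ⟨1 / 2 * (36 + 3 * (37 + 16 * 8 ^ (A + 1))), max (max n₁ n₂) ⌈Real.exp 4⌉₊,
    fun Q hQ t h1 h2 => ?_⟩
  have hQ1 : n₁ ≤ Q := ((le_max_left _ _).trans (le_max_left _ _)).trans hQ
  have hQ2 : n₂ ≤ Q := ((le_max_right _ _).trans (le_max_left _ _)).trans hQ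
  have hQ3 : Real.exp 4 ≤ Q := (Nat.le_ceil _).trans
    (by exact_mod_cast (le_max_right _ _).trans hQ)
  have hQp : (0 : ℝ) < Q := lt_of_lt_of_le (Real.exp_pos 4) hQ3
  have hL : 4 ≤ Real.log Q := by rw [Real.le_log_iff_exp_le hQp]; exact hQ3
  have hQ5 : (5 : ℝ) ≤ Q := by
    have := Real.add_one_le_exp 4
    linarith
  have hQ5' : 5 ≤ Q := by exact_mod_cast hQ5
  have htQ : (Q : ℝ) ≤ t := by exact_mod_cast h1
  have htQ2 : (t : ℝ) ≤ 2 * Q := by exact_mod_cast h2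
  have hLt : Real.log Q ≤ Real.log t := Real.log_le_log hQp htQ
  have k1 := h Q hQ1 t h1 h2 4 (by norm_num) (by rw [pow_one]; exact_mod_cast hL) X4 X4_prim
  have k2 := h' Q hQ2
  have k3 := h' t (hQ2.trans h1)
  -- decomposition
  have e1 : ∑ m ∈ Ioc Q t, lp m = Chebyshev.theta (t : ℝ) - Chebyshev.theta (Q : ℝ) := by
    rw [theta_nat, theta_nat, ← sum_Ioc_consecutive _ (Nat.zero_le Q) h1]
    ring
  have e2 : ((∑ m ∈ Ioc Q t, (ZMod.χ₄ (m : ZMod 4) : ℝ) * lp m : ℝ) : ℂ) =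
      SS X4 t - SS X4 Q := by
    rw [SS_sub _ Q t h1]
    push_cast
    apply sum_congr rfl
    intro m _
    unfold Pool.Agent.H262R3.Lk.SWQ.av lp
    rw [X4_apply]
    split_ifs
    · push_cast; ring
    · simp
  have e3 : ∑ m ∈ Ioc Q t, th Q m =
      1 / 2 * (∑ m ∈ Ioc Q t, lp m + ∑ m ∈ Ioc Q t, (ZMod.χ₄ (m : ZMod 4) : ℝ) * lp m) := by
    rw [← sum_add_distrib, mul_sum]
    apply sum_congr rfl
    intro m hm
    rw [mem_Ioc] at hm
    rw [th_nat Q m hm.1 (by omega)]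
    unfold lp
    by_cases hp : m.Prime
    · have hodd : m % 2 = 1 := by
        rcases hp.eq_two_or_odd with h | h
        · omega
        · exact h
      have h4 : m % 4 = 1 ∨ m % 4 = 3 := by omega
      rcases h4 with h4 | h4
      · rw [if_pos ⟨hp, h4⟩, if_pos hp, ZMod.χ₄_nat_one_mod_four h4]
        push_cast
        ring
      · rw [if_neg (by rintro ⟨_, h5⟩; omega), if_pos hp, ZMod.χ₄_nat_three_mod_four h4]
        push_cast
        ring
    · rw [if_neg (fun h => hp h.1), if_neg hp]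
      simp
  have e4 : |∑ m ∈ Ioc Q t, (ZMod.χ₄ (m : ZMod 4) : ℝ) * lp m| ≤ 36 * Q / Real.log Q ^ A := by
    rw [← e2, Complex.norm_real, Real.norm_eq_abs] at k1
    exact k1
  have e5 : (t : ℝ) / Real.log t ^ A ≤ 2 * (Q / Real.log Q ^ A) := by
    rw [mul_div_assoc']
    apply div_le_div₀ (by positivity) (by linarith) (by positivity)
    exact pow_le_pow_left₀ (by linarith) hLt _
  have hC : (0 : ℝ) ≤ 37 + 16 * 8 ^ (A + 1) := by positivity
  have e6 := mul_le_mul_of_nonneg_left e5 hC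
  have e7 : 1 / 2 * (36 + 3 * (37 + 16 * 8 ^ (A + 1))) * (Q : ℝ) / Real.log Q ^ A =
      1 / 2 * (36 * Q / Real.log Q ^ A + 3 * ((37 + 16 * 8 ^ (A + 1)) *
        (Q / Real.log Q ^ A))) := by ring
  rw [e3, e1, e7]
  rw [abs_le] at k2 k3 e4 ⊢
  constructor <;> linarith [k2.1, k2.2, k3.1, k3.2, e4.1, e4.2]

theorem swc : S_SWC := ⟨part1, part2⟩

end Pool.Agent.W762.EC
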